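import Pool.Agent.helper66.PX.Spec

/-!
# Project PX, row NNI: nonzero ideals contain non-nilpotent elements
-/

set_option autoImplicit false

namespace Pool.Agent.PX

universe u v w

theorem NNI (hLN : LN_stmt.{u, v}) : NNI_stmt.{u, v} := by
  intro K R _ _ _ n I hT hSem hMI z hz hz0
  by_contra hcon
  push Not at hcon
  set U : Submodule K R := Submodule.span K {y : R | ∃ a b : R, y = a * z * b} with hU
  have hUI : U ≤ I := by
    rw [hU, Submodule.span_le]
    rintro _ ⟨a, b, rfl⟩
    exact (hT b _ (hT a z hz).1).2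
  have hUl : ∀ a : R, ∀ x ∈ U, a * x ∈ U := by
    intro a x hx
    induction hx using Submodule.span_induction with
    | mem x hx =>
      obtain ⟨c, d, rfl⟩ := hx
      exact Submodule.subset_span ⟨a * c, d, by simp only [mul_assoc]⟩
    | zero => rw [mul_zero]; exact U.zero_mem
    | add x y _ _ hx hy => rw [mul_add]; exact U.add_mem hx hy
    | smul c x _ hx => rw [mul_smul_comm]; exact U.smul_mem _ hx
  have hUr : ∀ a : R, ∀ x ∈ U, x * a ∈ U := by
    intro a x hx
    induction hx using Submodule.span_induction with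
    | mem x hx =>
      obtain ⟨c, d, rfl⟩ := hx
      exact Submodule.subset_span ⟨c, d * a, by simp only [mul_assoc]⟩
    | zero => rw [zero_mul]; exact U.zero_mem
    | add x y _ _ hx hy => rw [add_mul]; exact U.add_mem hx hy
    | smul c x _ hx => rw [smul_mul_assoc]; exact U.smul_mem _ hx
  have hzU : z ∈ U := Submodule.subset_span ⟨1, 1, by simp⟩
  have hSemU : Sem K R U ⊥ := by
    intro x hx hxu
    apply hSem x (hUI hx)
    intro y hy
    have ht : x * y * x ∈ I := hUI (hUr x _ (hUr y x hx))
    apply hSem _ ht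
    intro q hq
    have h1 : y * x * q * x * y ∈ U := hUr y _ (hUr x _ (hUr q _ (hUl y x hx)))
    have h2 := hxu _ h1
    have h3 : x * y * x * q * (x * y * x) = x * (y * x * q * x * y) * x := by
      simp only [mul_assoc]
    rw [h3]
    exact h2
  have hMIU : MI K R U ⊥ n := by
    obtain ⟨s, c, hs, hn, hw, hx⟩ := hMI
    exact ⟨s, c, hs, hn, hw, fun x hxU => hx x (fun i => hUI (hxU i))⟩
  have hle : U ≤ ⊥ := by
    refine hLN K R n U ⊥ bot_le (fun x hx y _ => hUr y x hx) ?_ hSemU ?_ hMIU
    · intro x _ y hy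
      rw [Submodule.mem_bot] at hy
      subst hy
      simp
    · intro x hx
      obtain ⟨k, hk⟩ := hcon x hx
      exact ⟨k, by rw [pow_succ, hk, zero_mul]; exact Submodule.zero_mem _⟩
  exact hz0 ((Submodule.mem_bot K).1 (hle hzU))

end Pool.Agent.PX
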